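import Mathlib

/-!
# Maximal minimal presentations and unique factorization in Apéry sets

For all `e, m` with `e = m = 1` or `2 ≤ e ≤ m` there is a numerical semigroup of embedding
dimension `e` and multiplicity `m` with the largest possible number of relations in a minimal
presentation all of whose Apéry elements have exactly one factorization.
-/

namespace Pool.Agent.Results.MP_e1d67a_co.MaxEtaUnique

open Finset

/-- A submonoid of `ℕ` with finite complement. -/
def IsNumericalSemigroup (S : AddSubmonoid ℕ) : Prop := ((S : Set ℕ)ᶜ).Finite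

/-- The map `φ : ℕ^e → ℕ`, `a ↦ ∑ a_i n_i`. -/
def val {e : ℕ} (n : Fin e → ℕ) : (Fin e → ℕ) →+ ℕ where
  toFun a := ∑ i, a i * n i
  map_zero' := by simp
  map_add' a b := by simp [add_mul, Finset.sum_add_distrib]

/-- `n 0 < n 1 < ...` is the minimal generating set of `S`, listed in increasing order. -/
def IsMinGens (S : AddSubmonoid ℕ) {e : ℕ} (n : Fin e → ℕ) : Prop :=
  StrictMono n ∧ AddSubmonoid.closure (Set.range n) = S ∧
    ∀ i, n i ∉ AddSubmonoid.closure (Set.range n \ {n i})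

/-- `m` is the least nonzero element of `S`. -/
def IsMultiplicity (S : AddSubmonoid ℕ) (m : ℕ) : Prop := IsLeast {x | x ∈ S ∧ x ≠ 0} m

/-- The Apéry set of `S` with respect to `m`. -/
def Apery (S : AddSubmonoid ℕ) (m : ℕ) : Set ℕ := {x | x ∈ S ∧ ¬ ∃ y ∈ S, y + m = x}

/-- The pairs in `ρ` generate the congruence `ker φ` on `ℕ^e`. -/
def IsPresentation {e : ℕ} (n : Fin e → ℕ) (ρ : Set ((Fin e → ℕ) × (Fin e → ℕ))) : Prop :=
  addConGen (fun a b => (a, b) ∈ ρ) = AddCon.ker (val n)

/-- A generating set of the congruence `ker φ` that is minimal with respect to inclusion. -/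
def IsMinimalPresentation {e : ℕ} (n : Fin e → ℕ) (ρ : Set ((Fin e → ℕ) × (Fin e → ℕ))) : Prop :=
  IsPresentation n ρ ∧ ∀ ρ' ⊆ ρ, IsPresentation n ρ' → ρ' = ρ

/-- Auxiliary: finite presentations. -/
def FinPres {e : ℕ} (n : Fin e → ℕ) (ρ : Finset ((Fin e → ℕ) × (Fin e → ℕ))) : Prop :=
  addConGen (fun a b => (a, b) ∈ ρ) = AddCon.ker (val n)

/-- Auxiliary: the least cardinality of a finite presentation. -/
noncomputable def eta {e : ℕ} (n : Fin e → ℕ) : ℕ :=
  sInf {k | ∃ ρ, FinPres n ρ ∧ ρ.card = k}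

section Basic

variable {e : ℕ} (n : Fin e → ℕ)

theorem val_apply (a : Fin e → ℕ) : val n a = ∑ i, a i * n i := rfl

theorem val_single (i : Fin e) (c : ℕ) : val n (Pi.single i c) = c * n i := by
  rw [val_apply, Finset.sum_eq_single i]
  · simp
  · intro j _ hj; simp [Pi.single_eq_of_ne hj]
  · simp

theorem le_val (hpos : ∀ i, 0 < n i) (a : Fin e → ℕ) (i : Fin e) : a i ≤ val n a := by
  rw [val_apply]
  calc a i ≤ a i * n i := Nat.le_mul_of_pos_right _ (hpos i)
    _ ≤ _ := Finset.single_le_sum (f := fun i => a i * n i) (fun _ _ => Nat.zero_le _)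
      (Finset.mem_univ i)

theorem mem_closure (x : ℕ) :
    x ∈ AddSubmonoid.closure (Set.range n) ↔ ∃ a, val n a = x := by
  constructor
  · intro hx
    induction hx using AddSubmonoid.closure_induction with
    | mem x hx =>
      obtain ⟨i, rfl⟩ := hx
      exact ⟨Pi.single i 1, by rw [val_single, one_mul]⟩
    | zero => exact ⟨0, map_zero _⟩
    | add x y _ _ hx hy =>
      obtain ⟨a, rfl⟩ := hx
      obtain ⟨b, rfl⟩ := hy
      exact ⟨a + b, map_add _ _ _⟩
  · rintro ⟨a, rfl⟩
    rw [val_apply]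
    refine sum_mem fun i _ => ?_
    rw [← smul_eq_mul]
    exact nsmul_mem (AddSubmonoid.subset_closure (Set.mem_range_self i)) _

theorem of_mem_closure_diff {x : ℕ} {i : Fin e}
    (hx : x ∈ AddSubmonoid.closure (Set.range n \ {n i})) : ∃ a, a i = 0 ∧ val n a = x := by
  induction hx using AddSubmonoid.closure_induction with
  | mem x hx =>
    obtain ⟨⟨j, rfl⟩, hj⟩ := hx
    have hij : i ≠ j := by rintro rfl; exact hj rfl
    exact ⟨Pi.single j 1, by simp [Pi.single_eq_of_ne hij], by rw [val_single, one_mul]⟩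
  | zero => exact ⟨0, rfl, map_zero _⟩
  | add x y _ _ hx hy =>
    obtain ⟨a, ha, rfl⟩ := hx
    obtain ⟨b, hb, rfl⟩ := hy
    exact ⟨a + b, by simp [ha, hb], map_add _ _ _⟩

theorem mem_closure_diff (hinj : Function.Injective n) {i : Fin e} {a : Fin e → ℕ}
    (ha : a i = 0) : val n a ∈ AddSubmonoid.closure (Set.range n \ {n i}) := by
  rw [val_apply]
  refine sum_mem fun j _ => ?_
  by_cases hj : j = i
  · subst hj; rw [ha, zero_mul]; exact zero_mem _
  · rw [← smul_eq_mul]
    have hmem : n j ∈ Set.range n \ {n i} := ⟨⟨j, rfl⟩, fun h => hj (hinj h)⟩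
    exact nsmul_mem (AddSubmonoid.subset_closure hmem) _

theorem exists_eq_add {e : ℕ} {a : Fin e → ℕ} {i : Fin e} (h : 0 < a i) :
    ∃ b : Fin e → ℕ, a = b + Pi.single i 1 := by
  refine ⟨a - Pi.single i 1, (tsub_add_cancel_of_le ?_).symm⟩
  intro j
  by_cases hj : j = i
  · subst hj; rw [Pi.single_eq_same]; exact h
  · simp [Pi.single_eq_of_ne hj]

end Basic

section MinGens

variable {e : ℕ} {n : Fin e → ℕ} {S : AddSubmonoid ℕ}

theorem IsMinGens.pos (h : IsMinGens S n) (i : Fin e) : 0 < n i := by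
  rcases Nat.eq_zero_or_pos (n i) with h0 | h0
  · have h1 := h.2.2 i
    rw [h0] at h1
    exact absurd (zero_mem _) h1
  · exact h0

theorem IsMinGens.unique (h : IsMinGens S n) {i : Fin e} {b : Fin e → ℕ}
    (hb : val n b = n i) : b = Pi.single i 1 := by
  have hbi : 0 < b i := by
    rcases Nat.eq_zero_or_pos (b i) with h0 | h0
    · have h1 := mem_closure_diff n h.1.injective h0
      rw [hb] at h1
      exact absurd h1 (h.2.2 i)
    · exact h0
  obtain ⟨c, rfl⟩ := exists_eq_add hbi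
  rw [map_add, val_single, one_mul] at hb
  have hc : val n c = 0 := by omega
  have hc0 : c = 0 := by
    funext j
    have h2 := le_val n h.pos c j
    rw [hc] at h2
    exact Nat.le_zero.1 h2
  rw [hc0, zero_add]

end MinGens

section Std

variable {k : ℕ} (n : Fin (k + 1) → ℕ)

/-- The vectors whose value is least in its residue class. -/
def Std : Set (Fin (k + 1) → ℕ) := {a | ∀ b, val n b ≡ val n a [MOD n 0] → val n a ≤ val n b}

variable {n}

theorem std_zero (h0 : 0 < n 0) {a : Fin (k + 1) → ℕ} (ha : a ∈ Std n) : a 0 = 0 := by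
  by_contra h
  obtain ⟨b, rfl⟩ := exists_eq_add (Nat.pos_of_ne_zero h)
  have := ha b (by rw [map_add, val_single, one_mul]; simp [Nat.ModEq])
  rw [map_add, val_single, one_mul] at this
  omega

theorem std_down {a b : Fin (k + 1) → ℕ} (ha : a ∈ Std n) (h : b ≤ a) : b ∈ Std n := by
  obtain ⟨c, rfl⟩ := exists_add_of_le h
  intro d hd
  have := ha (d + c) (by rw [map_add, map_add]; exact Nat.ModEq.add_right _ hd)
  rw [map_add, map_add] at this
  omega

theorem zero_mem_std : (0 : Fin (k + 1) → ℕ) ∈ Std n := by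
  intro b _
  rw [map_zero]
  exact Nat.zero_le _

theorem exists_std (x : Fin (k + 1) → ℕ) : ∃ a ∈ Std n, val n a ≡ val n x [MOD n 0] := by
  classical
  have hex : ∃ v, ∃ a, val n a = v ∧ v ≡ val n x [MOD n 0] := ⟨_, x, rfl, rfl⟩
  obtain ⟨a, ha, hv⟩ := Nat.find_spec hex
  refine ⟨a, fun b hb => ?_, ha ▸ hv⟩
  rw [ha]
  exact Nat.find_min' hex ⟨b, rfl, hb.trans (ha ▸ hv)⟩

theorem exists_nf {a x : Fin (k + 1) → ℕ} (hle : val n a ≤ val n x)
    (h : val n a ≡ val n x [MOD n 0]) : ∃ c, val n x = val n (Pi.single 0 c + a) := by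
  obtain ⟨c, hc⟩ := (Nat.modEq_iff_dvd' hle).1 h
  refine ⟨c, ?_⟩
  rw [map_add, val_single, mul_comm c]
  omega

/-- The minimal vectors outside `Std n`. -/
def Gen (n : Fin (k + 1) → ℕ) : Set (Fin (k + 1) → ℕ) :=
  {g | g 0 = 0 ∧ g ∉ Std n ∧ ∀ b, b < g → b ∈ Std n}

theorem exists_gen {a : Fin (k + 1) → ℕ} (h0 : a 0 = 0) (ha : a ∉ Std n) :
    ∃ g ∈ Gen n, g ≤ a := by
  have hwf : WellFounded ((· < ·) : (Fin (k + 1) → ℕ) → (Fin (k + 1) → ℕ) → Prop) := wellFounded_lt
  obtain ⟨g, ⟨hg1, hg2⟩, hmin⟩ := hwf.has_min {b | b ≤ a ∧ b ∉ Std n} ⟨a, le_rfl, ha⟩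
  have hg3 : g ≤ a := hg1
  refine ⟨g, ⟨?_, hg2, fun b hb => ?_⟩, hg3⟩
  · have h4 : g 0 ≤ a 0 := hg3 0
    rw [h0] at h4
    exact Nat.le_zero.1 h4
  · by_contra h
    exact hmin b ⟨hb.le.trans hg1, h⟩ hb

/-- Uniqueness of the factorizations of the Apéry elements. -/
def Uniq (n : Fin (k + 1) → ℕ) : Prop :=
  ∀ a ∈ Std n, ∀ b ∈ Std n, val n a ≡ val n b [MOD n 0] → a = b

theorem Uniq.eq (hU : Uniq n) {a b : Fin (k + 1) → ℕ} (ha : a ∈ Std n)
    (h : val n b = val n a) : b = a := by
  refine (hU a ha b (fun c hc => ?_) (by rw [h])).symm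
  rw [h]
  exact ha c (by rw [h] at hc; exact hc)

theorem std_finite (h0 : 0 < n 0) (hU : Uniq n) : (Std n).Finite ∧ (Std n).ncard ≤ n 0 := by
  have hinj : Set.InjOn (fun a => val n a % n 0) (Std n) := fun a ha b hb h => hU a ha b hb h
  have hmaps : Set.MapsTo (fun a => val n a % n 0) (Std n) (Set.Iio (n 0)) :=
    fun a _ => Nat.mod_lt _ h0
  have hfin := Set.Finite.of_injOn hmaps hinj (Set.finite_Iio _)
  refine ⟨hfin, ?_⟩
  have := Set.ncard_le_ncard_of_injOn _ hmaps hinj (Set.finite_Iio _)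
  simpa using this

theorem gen_finite (h0 : 0 < n 0) (hU : Uniq n) :
    (Gen n).Finite ∧ (Gen n).ncard ≤ n 0 * (k + 1) := by
  obtain ⟨hf, hc⟩ := std_finite h0 hU
  have hsub : Gen n ⊆ (fun p : (Fin (k + 1) → ℕ) × Fin (k + 1) => p.1 + Pi.single p.2 1) ''
      (Std n ×ˢ (Set.univ : Set (Fin (k + 1)))) := by
    rintro g ⟨_, hg, hmin⟩
    have hne : g ≠ 0 := by rintro rfl; exact hg zero_mem_std
    obtain ⟨i, hi⟩ := Function.ne_iff.1 hne
    obtain ⟨b, rfl⟩ := exists_eq_add (Nat.pos_of_ne_zero hi)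
    refine ⟨(b, i), ⟨hmin b ?_, trivial⟩, rfl⟩
    refine lt_of_le_of_ne (Pi.le_def.2 fun j => Nat.le_add_right _ _) ?_
    intro h
    have := congrFun h i
    simp at this
  have hfin2 : ((Std n) ×ˢ (Set.univ : Set (Fin (k + 1)))).Finite := hf.prod Set.finite_univ
  refine ⟨(hfin2.image _).subset hsub, ?_⟩
  calc (Gen n).ncard ≤ _ := Set.ncard_le_ncard hsub (hfin2.image _)
    _ ≤ (Std n ×ˢ (Set.univ : Set (Fin (k + 1)))).ncard := Set.ncard_image_le hfin2
    _ = (Std n).ncard * (k + 1) := by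
      rw [Set.ncard_prod]; simp
    _ ≤ n 0 * (k + 1) := Nat.mul_le_mul_right _ hc

end Std

section Pert

variable {k : ℕ} (n : Fin (k + 1) → ℕ) (K : ℕ)

/-- The exponents of the perturbation. -/
def ex (i : Fin (k + 1)) : ℕ := if i = 0 then 0 else K ^ (k + 1) * n i + K ^ (i : ℕ)

/-- The perturbed generators. -/
def pert (i : Fin (k + 1)) : ℕ := n i + n 0 * ex n K i

theorem pert_zero : pert n K 0 = n 0 := by simp [pert, ex]

theorem val_pert (a : Fin (k + 1) → ℕ) : val (pert n K) a = val n a + n 0 * val (ex n K) a := by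
  simp only [val_apply, pert, Finset.mul_sum, ← Finset.sum_add_distrib]
  exact Finset.sum_congr rfl fun i _ => by ring

theorem pert_modEq (a : Fin (k + 1) → ℕ) : val (pert n K) a ≡ val n a [MOD n 0] := by
  rw [val_pert]
  simp [Nat.ModEq]

/-- The digit sum. -/
def dig (a : Fin (k + 1) → ℕ) : ℕ := ∑ i, a i * K ^ (i : ℕ)

theorem val_ex {a : Fin (k + 1) → ℕ} (ha : a 0 = 0) :
    val (ex n K) a = K ^ (k + 1) * val n a + dig K a := by
  simp only [val_apply, ex, dig, Finset.mul_sum, ← Finset.sum_add_distrib]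
  refine Finset.sum_congr rfl fun i _ => ?_
  by_cases hi : i = 0
  · subst hi; simp [ha]
  · rw [if_neg hi]; ring

variable {K}

theorem dig_eq {a : Fin (k + 1) → ℕ} (ha : ∀ i, a i < K) :
    dig K a = (finFunctionFinEquiv (fun i => (⟨a i, ha i⟩ : Fin K)) : ℕ) := by
  rw [finFunctionFinEquiv_apply]
  rfl

theorem dig_lt {a : Fin (k + 1) → ℕ} (ha : ∀ i, a i < K) : dig K a < K ^ (k + 1) := by
  rw [dig_eq ha]
  exact Fin.is_lt _

theorem dig_inj {a b : Fin (k + 1) → ℕ} (ha : ∀ i, a i < K) (hb : ∀ i, b i < K)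
    (h : dig K a = dig K b) : a = b := by
  rw [dig_eq ha, dig_eq hb] at h
  have h2 := finFunctionFinEquiv.injective (Fin.ext h)
  funext i
  have h3 := congrFun h2 i
  simpa using h3

variable {n}

theorem std_of_pert (h0 : 0 < n 0) (hK : ∀ a ∈ Std n, ∀ i, a i < K) {a : Fin (k + 1) → ℕ}
    (ha : a ∈ Std (pert n K)) : a ∈ Std n := by
  have ha0 : a 0 = 0 := std_zero (by rw [pert_zero]; exact h0) ha
  obtain ⟨b, hb, hba⟩ := exists_std (n := n) a
  have hb0 : b 0 = 0 := std_zero h0 hb
  have hle : val n b ≤ val n a := hb a hba.symm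
  rcases Nat.eq_or_lt_of_le hle with heq | hlt
  · intro c hc
    rw [← heq] at hc ⊢
    exact hb c hc
  · exfalso
    have h1 : val n b + n 0 ≤ val n a := by
      obtain ⟨c, hc⟩ := (Nat.modEq_iff_dvd' hle).1 hba
      have hc0 : c ≠ 0 := by rintro rfl; omega
      have : n 0 ≤ n 0 * c := Nat.le_mul_of_pos_right _ (Nat.pos_of_ne_zero hc0)
      omega
    have h2 := ha b (by
      rw [pert_zero]
      exact ((pert_modEq n K b).trans hba).trans (pert_modEq n K a).symm)
    rw [val_pert, val_pert, val_ex n K ha0, val_ex n K hb0] at h2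
    have h3 := dig_lt (hK b hb)
    have h4 : K ^ (k + 1) * (val n b + n 0) ≤ K ^ (k + 1) * val n a := Nat.mul_le_mul_left _ h1
    have h5 : K ^ (k + 1) ≤ K ^ (k + 1) * n 0 := Nat.le_mul_of_pos_right _ h0
    have h6 : K ^ (k + 1) * val n b + dig K b ≤ K ^ (k + 1) * val n a + dig K a := by
      rw [mul_add] at h4
      omega
    have h7 := Nat.mul_le_mul_left (n 0) h6
    omega

theorem uniq_pert (h0 : 0 < n 0) (hK : ∀ a ∈ Std n, ∀ i, a i < K) : Uniq (pert n K) := by
  intro a ha b hb h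
  have h1 : val (pert n K) a = val (pert n K) b := le_antisymm (ha b h.symm) (hb a h)
  have ha' := std_of_pert h0 hK ha
  have hb' := std_of_pert h0 hK hb
  have h2 : val n a ≡ val n b [MOD n 0] := by
    rw [pert_zero] at h
    exact ((pert_modEq n K a).symm.trans h).trans (pert_modEq n K b)
  have h3 : val n a = val n b := le_antisymm (ha' b h2.symm) (hb' a h2)
  have ha0 : a 0 = 0 := std_zero h0 ha'
  have hb0 : b 0 = 0 := std_zero h0 hb'
  rw [val_pert, val_pert, val_ex n K ha0, val_ex n K hb0, h3] at h1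
  have h4 := Nat.add_left_cancel h1
  have h5 := Nat.eq_of_mul_eq_mul_left h0 h4
  exact dig_inj (hK a ha') (hK b hb') (Nat.add_left_cancel h5)

theorem nf_unique (h0 : 0 < n 0) (hK : ∀ a ∈ Std n, ∀ i, a i < K) {c c' : ℕ}
    {d d' : Fin (k + 1) → ℕ} (hd : d ∈ Std (pert n K)) (hd' : d' ∈ Std (pert n K))
    (h : val n (Pi.single 0 c + d) = val n (Pi.single 0 c' + d')) : c = c' ∧ d = d' := by
  have h1 : val n d ≡ val n d' [MOD n 0] := by
    rw [map_add, map_add, val_single, val_single] at h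
    have h2 : c * n 0 + val n d ≡ c' * n 0 + val n d' [MOD n 0] := by rw [h]
    simpa [Nat.ModEq] using h2
  have h2 : d = d' := by
    refine uniq_pert h0 hK d hd d' hd' ?_
    rw [pert_zero]
    exact ((pert_modEq n K d).trans h1).trans (pert_modEq n K d').symm
  refine ⟨?_, h2⟩
  subst h2
  rw [map_add, map_add, val_single, val_single] at h
  exact Nat.eq_of_mul_eq_mul_right h0 (Nat.add_right_cancel h)

theorem lt_of_gen (h0 : 0 < n 0) (hK : ∀ a ∈ Std n, ∀ i, a i < K) {c : ℕ}
    {g d : Fin (k + 1) → ℕ} (hg : g ∈ Gen (pert n K)) (hd : d ∈ Std (pert n K))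
    (h : val n g = val n (Pi.single 0 c + d)) : val (pert n K) d < val (pert n K) g := by
  have h1 : val n g ≡ val n d [MOD n 0] := by
    rw [h, map_add, val_single]
    simp [Nat.ModEq]
  have h2 : val (pert n K) g ≡ val (pert n K) d [MOD pert n K 0] := by
    rw [pert_zero]
    exact ((pert_modEq n K g).trans h1).trans (pert_modEq n K d).symm
  refine lt_of_le_of_ne (hd g h2) fun heq => ?_
  have h3 := (uniq_pert h0 hK).eq hd heq.symm
  exact hg.2.1 (h3 ▸ hd)

theorem val_update {m : Fin (k + 1) → ℕ} {b : Fin (k + 1) → ℕ} (hb : b 0 = 0) :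
    val (Function.update m 0 0) b = val m b := by
  simp only [val_apply]
  refine Finset.sum_congr rfl fun i _ => ?_
  by_cases hi : i = 0
  · subst hi; simp [hb]
  · rw [Function.update_of_ne hi]

theorem exists_presentation (h0 : 0 < n 0) (hK : ∀ a ∈ Std n, ∀ i, a i < K) :
    ∃ ρ, FinPres n ρ ∧ ρ.card ≤ (Gen (pert n K)).ncard := by
  classical
  have h0' : 0 < pert n K 0 := by rw [pert_zero]; exact h0
  have hU := uniq_pert h0 hK
  have hGf := (gen_finite h0' hU).1
  have hnf : ∀ x, ∃ r, (∃ c, ∃ d ∈ Std (pert n K), r = Pi.single 0 c + d) ∧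
      val n x = val n r := by
    intro x
    obtain ⟨d, hd, hm⟩ := exists_std (n := pert n K) x
    rw [pert_zero] at hm
    have hm2 : val n d ≡ val n x [MOD n 0] :=
      ((pert_modEq n K d).symm.trans hm).trans (pert_modEq n K x)
    obtain ⟨c, hc⟩ := exists_nf (std_of_pert h0 hK hd x hm2.symm) hm2
    exact ⟨_, ⟨c, d, hd, rfl⟩, hc⟩
  choose f hf1 hf2 using hnf
  let ρ : Finset ((Fin (k + 1) → ℕ) × (Fin (k + 1) → ℕ)) :=
    hGf.toFinset.image (fun g => (g, f g))
  have hle : addConGen (fun a b => (a, b) ∈ ρ) ≤ AddCon.ker (val n) := by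
    refine AddCon.addConGen_le.2 fun x y hxy => ?_
    obtain ⟨g, _, hg⟩ := Finset.mem_image.1 hxy
    obtain ⟨rfl, rfl⟩ := Prod.mk.inj hg
    exact hf2 g
  have hC : ∀ g ∈ Gen (pert n K), addConGen (fun a b => (a, b) ∈ ρ) g (f g) := by
    intro g hg
    refine AddConGen.Rel.of _ _ ?_
    exact Finset.mem_image.2 ⟨g, hGf.mem_toFinset.2 hg, rfl⟩
  have hred : ∀ (N : ℕ) (a : Fin (k + 1) → ℕ), val (Function.update (pert n K) 0 0) a = N →
      ∃ c, ∃ d ∈ Std (pert n K), addConGen (fun a b => (a, b) ∈ ρ) a (Pi.single 0 c + d) := by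
    intro N
    induction N using Nat.strong_induction_on with
    | _ N ih =>
      intro a haN
      have hsplit : a = Pi.single 0 (a 0) + Function.update a 0 0 := by
        funext i
        by_cases hi : i = 0
        · subst hi; simp
        · simp [Pi.single_eq_of_ne hi, Function.update_of_ne hi]
      by_cases hs : Function.update a 0 0 ∈ Std (pert n K)
      · exact ⟨a 0, _, hs, by rw [← hsplit]; exact (addConGen _).refl _⟩
      · have ha0 : Function.update a 0 0 0 = 0 := by simp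
        obtain ⟨g, hg, hle2⟩ := exists_gen ha0 hs
        obtain ⟨d, hd⟩ := exists_add_of_le hle2
        obtain ⟨c, δ, hδ, hfg⟩ := hf1 g
        have hval := hf2 g
        rw [hfg] at hval
        have hlt := lt_of_gen h0 hK hg hδ hval
        have hg0 : g 0 = 0 := hg.1
        have hδ0 : δ 0 = 0 := std_zero h0' hδ
        have ha' : a = Pi.single 0 (a 0) + (g + d) := by rw [← hd]; exact hsplit
        have hstep : addConGen (fun a b => (a, b) ∈ ρ) a
            (Pi.single 0 (a 0) + (Pi.single 0 c + δ + d)) := by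
          have h1 := (addConGen (fun a b => (a, b) ∈ ρ)).add
            ((addConGen (fun a b => (a, b) ∈ ρ)).refl (Pi.single 0 (a 0)))
            ((addConGen (fun a b => (a, b) ∈ ρ)).add (hC g hg)
              ((addConGen (fun a b => (a, b) ∈ ρ)).refl d))
          rw [hfg, ← ha'] at h1
          exact h1
        have hlt2 : val (Function.update (pert n K) 0 0)
            (Pi.single 0 (a 0) + (Pi.single 0 c + δ + d)) < N := by
          rw [← haN]
          conv_rhs => rw [ha']
          simp only [map_add, val_single, Function.update_self, mul_zero, zero_add]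
          rw [val_update hδ0, val_update hg0]
          omega
        obtain ⟨c2, d2, hd2, hrel⟩ := ih _ hlt2 _ rfl
        exact ⟨c2, d2, hd2, (addConGen _).trans hstep hrel⟩
  refine ⟨ρ, le_antisymm hle ?_, ?_⟩
  · intro a b hab
    obtain ⟨c, d, hd, h1⟩ := hred _ a rfl
    obtain ⟨c', d', hd', h2⟩ := hred _ b rfl
    have e1 : val n a = val n (Pi.single 0 c + d) := hle h1
    have e2 : val n b = val n (Pi.single 0 c' + d') := hle h2
    have e3 : val n a = val n b := hab
    obtain ⟨rfl, rfl⟩ := nf_unique h0 hK hd hd' (by rw [← e1, ← e2, e3])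
    exact (addConGen _).trans h1 ((addConGen _).symm h2)
  · calc ρ.card ≤ hGf.toFinset.card := Finset.card_image_le
      _ = (Gen (pert n K)).ncard := (Set.ncard_eq_toFinset_card _ hGf).symm

end Pert

section Lower

variable {k : ℕ} {n : Fin (k + 1) → ℕ}

theorem card_le_of_presentation (h0 : 0 < n 0) (hU : Uniq n)
    {ρ : Finset ((Fin (k + 1) → ℕ) × (Fin (k + 1) → ℕ))} (hρ : FinPres n ρ) :
    (Gen n).ncard ≤ ρ.card := by
  classical
  have hGf := (gen_finite h0 hU).1
  let br : (Fin (k + 1) → ℕ) → ((Fin (k + 1) → ℕ) →₀ ℚ) :=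
    fun a => if a ∈ Gen n then Finsupp.single a 1 else 0
  let T : Finset ((Fin (k + 1) → ℕ) →₀ ℚ) := ρ.image fun p => br p.1 - br p.2
  let W : Submodule ℚ ((Fin (k + 1) → ℕ) →₀ ℚ) := Submodule.span ℚ (T : Set _)
  let C : AddCon (Fin (k + 1) → ℕ) :=
    { r := fun a b => ∀ z, br (a + z) - br (b + z) ∈ W
      iseqv := ⟨fun a z => by rw [sub_self]; exact W.zero_mem,
        fun {a b} h z => by rw [← neg_sub]; exact W.neg_mem (h z),
        fun {a b c} h1 h2 z => by
          have := W.add_mem (h1 z) (h2 z)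
          rwa [sub_add_sub_cancel] at this⟩
      add' := fun {a b c d} h1 h2 z => by
        have e1 := h1 (c + z)
        have e2 := h2 (b + z)
        have := W.add_mem e1 e2
        rw [show c + (b + z) = b + (c + z) by abel, sub_add_sub_cancel] at this
        rw [show a + c + z = a + (c + z) by abel, show b + d + z = d + (b + z) by abel]
        exact this }
  have hker : ∀ {u v}, (u, v) ∈ ρ → val n u = val n v := by
    intro u v huv
    have h1 : addConGen (fun a b => (a, b) ∈ ρ) u v := AddConGen.Rel.of _ _ huv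
    rw [hρ] at h1
    exact h1
  have hnot : ∀ u v z : Fin (k + 1) → ℕ, val n u = val n v → u ≠ v → z ≠ 0 → u + z ∉ Gen n := by
    intro u v z huv hne hz hmem
    have hlt : u < u + z := by
      refine lt_of_le_of_ne (Pi.le_def.2 fun j => Nat.le_add_right _ _) fun h => hz ?_
      funext j
      have := congrFun h j
      simp only [Pi.add_apply] at this
      simp only [Pi.zero_apply]
      omega
    exact hne (hU.eq (hmem.2.2 u hlt) huv.symm).symm
  have hle : addConGen (fun a b => (a, b) ∈ ρ) ≤ C := by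
    refine AddCon.addConGen_le.2 fun u v huv => ?_
    intro z
    by_cases huv2 : u = v
    · rw [huv2, sub_self]; exact W.zero_mem
    by_cases hz : z = 0
    · subst hz
      rw [add_zero, add_zero]
      exact Submodule.subset_span (Finset.mem_coe.2 (Finset.mem_image.2 ⟨(u, v), huv, rfl⟩))
    · have e1 : br (u + z) = 0 := if_neg (hnot u v z (hker huv) huv2 hz)
      have e2 : br (v + z) = 0 := if_neg (hnot v u z (hker huv).symm (Ne.symm huv2) hz)
      rw [e1, e2, sub_self]; exact W.zero_mem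
  have hmem : ∀ g ∈ Gen n, (Finsupp.single g (1 : ℚ)) ∈ W := by
    intro g hg
    obtain ⟨d, hd, hm⟩ := exists_std (n := n) g
    obtain ⟨c, hc⟩ := exists_nf (hd g hm.symm) hm
    have hcpos : c ≠ 0 := by
      rintro rfl
      have : val n g = val n d := by rw [hc]; simp
      exact hg.2.1 ((hU.eq hd this) ▸ hd)
    have hrel : addConGen (fun a b => (a, b) ∈ ρ) g (Pi.single 0 c + d) := by
      rw [hρ]; exact hc
    have h1 : br (g + 0) - br (Pi.single 0 c + d + 0) ∈ W := hle hrel 0
    have h2 : Pi.single 0 c + d ∉ Gen n := by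
      intro h
      have h3 := h.1
      simp at h3
      exact hcpos h3.1
    rw [add_zero, add_zero] at h1
    have e1 : br g = Finsupp.single g 1 := if_pos hg
    have e2 : br (Pi.single 0 c + d) = 0 := if_neg h2
    rw [e1, e2, sub_zero] at h1
    exact h1
  have : Fintype (Gen n) := hGf.fintype
  let v : Gen n → W := fun g => ⟨Finsupp.single (g : Fin (k + 1) → ℕ) 1, hmem g g.2⟩
  have hli : LinearIndependent ℚ v := by
    refine LinearIndependent.of_comp W.subtype ?_
    have h1 := (Finsupp.basisSingleOne (R := ℚ) (ι := Fin (k + 1) → ℕ)).linearIndependent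
    have h2 := h1.comp (Subtype.val : Gen n → _) Subtype.val_injective
    convert h2 using 1
    funext g
    simp [v]
  have : FiniteDimensional ℚ W := FiniteDimensional.span_finset ℚ T
  calc (Gen n).ncard = Fintype.card (Gen n) := by
        rw [← Nat.card_coe_set_eq, Nat.card_eq_fintype_card]
    _ ≤ Module.finrank ℚ W := hli.fintype_card_le_finrank
    _ ≤ T.card := finrank_span_finset_le_card T
    _ ≤ ρ.card := Finset.card_image_le

end Lower

section MinPres

variable {e : ℕ} {n : Fin e → ℕ}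

theorem finPres_iff (ρ : Finset ((Fin e → ℕ) × (Fin e → ℕ))) :
    IsPresentation n (ρ : Set _) ↔ FinPres n ρ := Iff.rfl

/-- Basis vectors of the free vector space on `ℕ^e`. -/
noncomputable def br (a : Fin e → ℕ) : (Fin e → ℕ) →₀ ℚ := Finsupp.single a 1

/-- The span of the shifted differences. -/
noncomputable def U (n : Fin e → ℕ) : Submodule ℚ ((Fin e → ℕ) →₀ ℚ) :=
  Submodule.span ℚ {x | ∃ a b z, val n a = val n b ∧ z ≠ 0 ∧ x = br (a + z) - br (b + z)}

/-- The difference of a pair. -/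
noncomputable def df (p : (Fin e → ℕ) × (Fin e → ℕ)) : (Fin e → ℕ) →₀ ℚ := br p.1 - br p.2

theorem sub_mem_U {a b z : Fin e → ℕ} (h : val n a = val n b) (hz : z ≠ 0) :
    br (a + z) - br (b + z) ∈ U n := Submodule.subset_span ⟨a, b, z, h, hz, rfl⟩

theorem IsPresentation.val_eq {ρ : Set ((Fin e → ℕ) × (Fin e → ℕ))} (hρ : IsPresentation n ρ)
    {p : (Fin e → ℕ) × (Fin e → ℕ)} (hp : p ∈ ρ) : val n p.1 = val n p.2 := by
  have h1 : addConGen (fun a b => (a, b) ∈ ρ) p.1 p.2 := AddConGen.Rel.of _ _ hp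
  rw [hρ] at h1
  exact h1

theorem IsPresentation.mem {ρ : Set ((Fin e → ℕ) × (Fin e → ℕ))} (hρ : IsPresentation n ρ)
    {a b : Fin e → ℕ} (hab : val n a = val n b) :
    br a - br b ∈ U n ⊔ Submodule.span ℚ (df '' ρ) := by
  set W := U n ⊔ Submodule.span ℚ (df '' ρ) with hW
  have hUW : U n ≤ W := le_sup_left
  let C : AddCon (Fin e → ℕ) :=
    { r := fun a b => val n a = val n b ∧ br a - br b ∈ W
      iseqv := ⟨fun a => ⟨rfl, by rw [sub_self]; exact W.zero_mem⟩,
        fun {a b} h => ⟨h.1.symm, by rw [← neg_sub]; exact W.neg_mem h.2⟩,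
        fun {a b c} h1 h2 => ⟨h1.1.trans h2.1, by
          have := W.add_mem h1.2 h2.2
          rwa [sub_add_sub_cancel] at this⟩⟩
      add' := fun {a b c d} h1 h2 => by
        refine ⟨by rw [map_add, map_add, h1.1, h2.1], ?_⟩
        have e1 : br (a + c) - br (b + c) ∈ W := by
          by_cases hc : c = 0
          · subst hc; rw [add_zero, add_zero]; exact h1.2
          · exact hUW (sub_mem_U h1.1 hc)
        have e2 : br (c + b) - br (d + b) ∈ W := by
          by_cases hb : b = 0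
          · subst hb; rw [add_zero, add_zero]; exact h2.2
          · exact hUW (sub_mem_U h2.1 hb)
        have := W.add_mem e1 e2
        rw [add_comm c b, sub_add_sub_cancel, add_comm d b] at this
        exact this }
  have hle : addConGen (fun a b => (a, b) ∈ ρ) ≤ C := by
    refine AddCon.addConGen_le.2 fun u v huv => ?_
    exact ⟨hρ.val_eq huv,
      (le_sup_right : _ ≤ W) (Submodule.subset_span ⟨(u, v), huv, rfl⟩)⟩
  have h1 : addConGen (fun a b => (a, b) ∈ ρ) a b := by
    rw [hρ]; exact hab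
  exact (hle h1).2

theorem isPresentation_of (hpos : ∀ i, 0 < n i) {ρ : Set ((Fin e → ℕ) × (Fin e → ℕ))}
    (hval : ∀ p ∈ ρ, val n p.1 = val n p.2)
    (hspan : ∀ a b, val n a = val n b → br a - br b ∈ U n ⊔ Submodule.span ℚ (df '' ρ)) :
    IsPresentation n ρ := by
  classical
  set C := addConGen (fun a b => (a, b) ∈ ρ) with hC
  refine le_antisymm (AddCon.addConGen_le.2 fun x y hxy => hval _ hxy) ?_
  have key : ∀ N a b, val n a = N → val n b = N → C a b := by
    intro N
    induction N using Nat.strong_induction_on with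
    | _ N ih =>
      intro a b ha hb
      let Φ : ((Fin e → ℕ) →₀ ℚ) →ₗ[ℚ] (C.Quotient →₀ ℚ) :=
        Finsupp.linearCombination ℚ
          (fun x => if val n x = N then Finsupp.single (x : C.Quotient) 1 else 0)
      have hΦ : ∀ x, Φ (br x) = if val n x = N then Finsupp.single (x : C.Quotient) 1 else 0 := by
        intro x
        simp [Φ, br]
      have hkill : U n ⊔ Submodule.span ℚ (df '' ρ) ≤ LinearMap.ker Φ := by
        refine sup_le (Submodule.span_le.2 ?_) (Submodule.span_le.2 ?_)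
        · rintro _ ⟨x, y, z, hxy, hz, rfl⟩
          rw [SetLike.mem_coe, LinearMap.mem_ker, map_sub, hΦ, hΦ]
          have h1 : val n (x + z) = val n (y + z) := by rw [map_add, map_add, hxy]
          by_cases h2 : val n (x + z) = N
          · rw [if_pos h2, if_pos (h1 ▸ h2)]
            obtain ⟨i, hi⟩ := Function.ne_iff.1 hz
            have h3 := le_val n hpos z i
            have h4 : 0 < z i := Nat.pos_of_ne_zero hi
            rw [map_add] at h2
            have h5 : C x y := ih (val n x) (by omega) x y rfl hxy.symm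
            have h6 : C (x + z) (y + z) := C.add h5 (C.refl z)
            rw [(AddCon.eq C).2 h6, sub_self]
          · rw [if_neg h2, if_neg (fun h => h2 (h1.trans h)), sub_self]
        · rintro _ ⟨p, hp, rfl⟩
          rw [SetLike.mem_coe, LinearMap.mem_ker, df, map_sub, hΦ, hΦ]
          have h1 := hval p hp
          have h2 : C p.1 p.2 := AddConGen.Rel.of _ _ hp
          rw [h1, (AddCon.eq C).2 h2, sub_self]
      have h1 := hkill (hspan a b (ha.trans hb.symm))
      rw [LinearMap.mem_ker, map_sub, hΦ, hΦ, if_pos ha, if_pos hb, sub_eq_zero] at h1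
      have h2 := Finsupp.single_left_injective (one_ne_zero) h1
      exact (AddCon.eq C).1 h2
  intro a b hab
  exact key _ a b rfl (Eq.symm hab)

/-- Every minimal presentation is finite and has the cardinality `eta n`. -/
theorem IsMinimalPresentation.card (hpos : ∀ i, 0 < n i) (hfin : ∃ ρ₀, FinPres n ρ₀)
    {ρ : Set ((Fin e → ℕ) × (Fin e → ℕ))} (hρ : IsMinimalPresentation n ρ) :
    ρ.Finite ∧ ρ.ncard = eta n := by
  classical
  obtain ⟨ρ₁, hρ₁, hc⟩ := Nat.sInf_mem (s := {k | ∃ ρ, FinPres n ρ ∧ ρ.card = k})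
    (by obtain ⟨ρ₀, h₀⟩ := hfin; exact ⟨_, ρ₀, h₀, rfl⟩)
  let q := (U n).mkQ
  let V : Submodule ℚ (((Fin e → ℕ) →₀ ℚ) ⧸ U n) := Submodule.span ℚ ((fun p => q (df p)) '' (ρ₁ : Set _))
  have hVfin : FiniteDimensional ℚ V :=
    FiniteDimensional.span_of_finite ℚ ((Finset.finite_toSet ρ₁).image _)
  have hVrank : Module.finrank ℚ V ≤ ρ₁.card := by
    have h1 : V = Submodule.span ℚ ((ρ₁.image (fun p => q (df p)) : Finset _) : Set _) := by
      simp [V]
    rw [h1]
    exact (finrank_span_finset_le_card _).trans Finset.card_image_le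
  have hq : ∀ {σ : Set ((Fin e → ℕ) × (Fin e → ℕ))} {x : (Fin e → ℕ) →₀ ℚ},
      x ∈ U n ⊔ Submodule.span ℚ (df '' σ) ↔ q x ∈ Submodule.span ℚ ((fun p => q (df p)) '' σ) := by
    intro σ x
    have h1 : Submodule.span ℚ ((fun p => q (df p)) '' σ) =
        (Submodule.span ℚ (df '' σ)).map q := by
      rw [Submodule.map_span, Set.image_image]
    rw [h1, ← Submodule.mem_comap, Submodule.comap_map_mkQ]
  have hmemV : ∀ p ∈ ρ, q (df p) ∈ V := fun p hp => hq.1 (IsPresentation.mem hρ₁ (hρ.1.val_eq hp))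
  let v : ρ → V := fun p => ⟨q (df p), hmemV p p.2⟩
  have hli : LinearIndependent ℚ v := by
    rw [linearIndependent_iff_notMem_span]
    intro p hp
    have hp2 : q (df p) ∈ Submodule.span ℚ ((fun p => q (df p)) '' (ρ \ {(p : _ × _)})) := by
      have h1 := Submodule.mem_map_of_mem (f := V.subtype) hp
      rw [Submodule.map_span] at h1
      refine Submodule.span_mono ?_ h1
      rintro _ ⟨_, ⟨r, hr, rfl⟩, rfl⟩
      exact ⟨r, ⟨r.2, fun h => hr.2 (Subtype.ext h)⟩, rfl⟩
    have h3 : IsPresentation n (ρ \ {(p : _ × _)}) := by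
      refine isPresentation_of hpos (fun r hr => hρ.1.val_eq hr.1) fun a b hab => ?_
      rw [hq]
      have h4 := hq.1 (hρ.1.mem hab)
      refine Submodule.span_le.2 ?_ h4
      rintro _ ⟨r, hr, rfl⟩
      by_cases hrp : r = p
      · rw [hrp]; exact hp2
      · exact Submodule.subset_span ⟨r, ⟨hr, hrp⟩, rfl⟩
    have h4 := hρ.2 _ Set.sdiff_subset h3
    have h5 : (p : _ × _) ∈ ρ \ {(p : _ × _)} := h4.symm ▸ p.2
    exact h5.2 rfl
  have hfinρ : Finite ρ := hli.finite
  have hle : ρ.ncard ≤ eta n := by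
    have : Fintype ρ := Fintype.ofFinite ρ
    calc ρ.ncard = Fintype.card ρ := by rw [← Nat.card_coe_set_eq, Nat.card_eq_fintype_card]
      _ ≤ Module.finrank ℚ V := hli.fintype_card_le_finrank
      _ ≤ ρ₁.card := hVrank
      _ = eta n := hc
  have hfs : ρ.Finite := Set.toFinite ρ
  refine ⟨hfs, le_antisymm hle ?_⟩
  refine Nat.sInf_le ⟨hfs.toFinset, ?_, (Set.ncard_eq_toFinset_card _ hfs).symm⟩
  rw [← finPres_iff, hfs.coe_toFinset]
  exact hρ.1

theorem exists_minimalPresentation (hfin : ∃ ρ₀, FinPres n ρ₀) :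
    ∃ ρ, IsMinimalPresentation n ρ := by
  obtain ⟨ρ₁, hρ₁, hc⟩ := Nat.sInf_mem (s := {k | ∃ ρ, FinPres n ρ ∧ ρ.card = k})
    (by obtain ⟨ρ₀, h₀⟩ := hfin; exact ⟨_, ρ₀, h₀, rfl⟩)
  refine ⟨ρ₁, hρ₁, fun ρ' hsub hρ' => ?_⟩
  have hf : ρ'.Finite := (Finset.finite_toSet ρ₁).subset hsub
  have h1 : eta n ≤ hf.toFinset.card :=
    Nat.sInf_le ⟨hf.toFinset, by rw [← finPres_iff, hf.coe_toFinset]; exact hρ', rfl⟩
  have h2 : hf.toFinset ⊆ ρ₁ := fun x hx => hsub (hf.mem_toFinset.1 hx)
  have h3 := Finset.eq_of_subset_of_card_le h2 (by rw [hc]; exact h1)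
  rw [← h3, hf.coe_toFinset]

end MinPres

section Final

variable {k : ℕ} {n : Fin (k + 1) → ℕ} {S : AddSubmonoid ℕ} {m : ℕ}

theorem le_of_val_ne (hmono : Monotone n) {a : Fin (k + 1) → ℕ} (ha : val n a ≠ 0) :
    n 0 ≤ val n a := by
  have hne : a ≠ 0 := by rintro rfl; exact ha (map_zero _)
  obtain ⟨i, hi⟩ := Function.ne_iff.1 hne
  obtain ⟨b, rfl⟩ := exists_eq_add (Nat.pos_of_ne_zero hi)
  rw [map_add, val_single, one_mul]
  have := hmono (Fin.zero_le i)
  omega

theorem IsMinGens.mem (h : IsMinGens S n) (a : Fin (k + 1) → ℕ) : val n a ∈ S := by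
  rw [← h.2.1]
  exact (mem_closure n _).2 ⟨a, rfl⟩

theorem IsMinGens.exists_val (h : IsMinGens S n) {x : ℕ} (hx : x ∈ S) : ∃ a, val n a = x := by
  rw [← h.2.1] at hx
  exact (mem_closure n _).1 hx

theorem gens_zero (h : IsMinGens S n) (hm : IsMultiplicity S m) : n 0 = m := by
  apply le_antisymm
  · obtain ⟨a, ha⟩ := h.exists_val hm.1.1
    rw [← ha]
    exact le_of_val_ne h.1.monotone (by rw [ha]; exact hm.1.2)
  · refine hm.2 ⟨?_, (h.pos 0).ne'⟩
    have := h.mem (Pi.single 0 1)
    rwa [val_single, one_mul] at this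

theorem mult_of_gens (h : IsMinGens S n) : IsMultiplicity S (n 0) := by
  refine ⟨⟨?_, (h.pos 0).ne'⟩, ?_⟩
  · have := h.mem (Pi.single 0 1)
    rwa [val_single, one_mul] at this
  · rintro x ⟨hx, hx0⟩
    obtain ⟨a, rfl⟩ := h.exists_val hx
    exact le_of_val_ne h.1.monotone hx0

theorem exists_bound (hS : IsNumericalSemigroup S) (h : IsMinGens S n) :
    ∃ K, ∀ a ∈ Std n, ∀ i, a i < K := by
  obtain ⟨u, hu⟩ := hS.bddAbove
  refine ⟨u + n 0 + 1, fun a ha i => ?_⟩
  have h1 := le_val n h.pos a i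
  have h2 : val n a ≤ u + n 0 := by
    by_contra hlt
    push Not at hlt
    have h3 : val n a - n 0 ∈ S := by
      by_contra h4
      have := hu h4
      omega
    obtain ⟨b, hb⟩ := h.exists_val h3
    have h5 : val n b ≡ val n a [MOD n 0] := by
      have h6 : val n a = val n b + n 0 := by omega
      rw [h6]; simp [Nat.ModEq]
    have h7 := ha b h5
    have h8 := h.pos 0
    omega
  omega

theorem single_mem_std (h : IsMinGens S n) {i : Fin (k + 1)} (hi : i ≠ 0) :
    Pi.single i 1 ∈ Std n := by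
  intro b hb
  by_contra hlt
  push Not at hlt
  rw [val_single, one_mul] at hlt hb
  obtain ⟨c, hc⟩ := (Nat.modEq_iff_dvd' hlt.le).1 hb
  have h1 : val n (b + Pi.single 0 c) = n i := by
    rw [map_add, val_single, mul_comm c]; omega
  have h2 := congrFun (h.unique h1) 0
  simp only [Pi.add_apply, Pi.single_eq_same, Pi.single_eq_of_ne (Ne.symm hi)] at h2
  have hc0 : c = 0 := by omega
  rw [hc0, mul_zero] at hc
  omega

theorem pert_minGens (hS : IsNumericalSemigroup S) (h : IsMinGens S n) {K : ℕ}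
    (hK : ∀ a ∈ Std n, ∀ i, a i < K) :
    IsNumericalSemigroup (AddSubmonoid.closure (Set.range (pert n K))) ∧
      IsMinGens (AddSubmonoid.closure (Set.range (pert n K))) (pert n K) := by
  have h0 := h.pos 0
  have hU := uniq_pert h0 hK
  have hK0 : 0 < K := lt_of_le_of_lt (Nat.zero_le _) (hK 0 zero_mem_std 0)
  have hnle : ∀ i, n i ≤ pert n K i := fun i => Nat.le_add_right _ _
  have hmono : StrictMono (pert n K) := by
    intro i j hij
    have hj : j ≠ 0 := by rintro rfl; exact absurd hij (Fin.not_lt_zero i)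
    have hnij := h.1 hij
    by_cases hi : i = 0
    · subst hi
      rw [pert_zero]
      exact lt_of_lt_of_le hnij (hnle j)
    · have e1 : ex n K i ≤ ex n K j := by
        simp only [ex, if_neg hi, if_neg hj]
        have h1 : K ^ (k + 1) * (n i + 1) ≤ K ^ (k + 1) * n j := Nat.mul_le_mul_left _ hnij
        have h2 : K ^ (i : ℕ) ≤ K ^ (k + 1) := Nat.pow_le_pow_right hK0 (by omega)
        rw [mul_add, mul_one] at h1
        omega
      have e2 := Nat.mul_le_mul_left (n 0) e1
      simp only [pert]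
      omega
  refine ⟨?_, hmono, rfl, ?_⟩
  · obtain ⟨u, hu⟩ := hS.bddAbove
    have hrep : ∀ r : ℕ, ∃ a, val n a ≡ r [MOD n 0] := by
      intro r
      have hmem : r + n 0 * (u + 1) ∈ S := by
        by_contra h4
        have h5 : r + n 0 * (u + 1) ≤ u := hu h4
        have h6 : u + 1 ≤ n 0 * (u + 1) := Nat.le_mul_of_pos_left _ h0
        omega
      obtain ⟨a, ha⟩ := h.exists_val hmem
      exact ⟨a, by rw [ha]; simp [Nat.ModEq]⟩
    choose f hf using hrep
    refine (Set.finite_Iio (∑ r ∈ Finset.range (n 0), val (pert n K) (f r))).subset ?_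
    intro x hx
    by_contra hlt
    simp only [Set.mem_Iio, not_lt] at hlt
    apply hx
    have h1 : val (pert n K) (f (x % n 0)) ≤ x :=
      (Finset.single_le_sum (f := fun r => val (pert n K) (f r)) (fun _ _ => Nat.zero_le _)
        (Finset.mem_range.2 (Nat.mod_lt x h0))).trans hlt
    have h2 : val (pert n K) (f (x % n 0)) ≡ x [MOD n 0] :=
      ((pert_modEq n K _).trans (hf _)).trans (Nat.mod_modEq _ _)
    obtain ⟨c, hc⟩ := (Nat.modEq_iff_dvd' h1).1 h2
    refine (mem_closure _ _).2 ⟨Pi.single 0 c + f (x % n 0), ?_⟩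
    rw [map_add, val_single, pert_zero, mul_comm c]
    omega
  · intro i hi
    obtain ⟨b, hb0, hb⟩ := of_mem_closure_diff _ hi
    by_cases hi0 : i = 0
    · subst hi0
      have hne : b ≠ 0 := by
        rintro rfl
        rw [map_zero, pert_zero] at hb
        omega
      obtain ⟨j, hj⟩ := Function.ne_iff.1 hne
      have hj0 : j ≠ 0 := by rintro rfl; exact hj hb0
      obtain ⟨c, rfl⟩ := exists_eq_add (Nat.pos_of_ne_zero hj)
      rw [map_add, val_single, one_mul] at hb
      have := hmono (Fin.pos_of_ne_zero hj0)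
      omega
    · obtain ⟨d, hd, hm⟩ := exists_std (n := pert n K) (Pi.single i 1)
      rw [pert_zero] at hm
      have hd' := std_of_pert h0 hK hd
      have hm2 : val n d ≡ val n (Pi.single i 1) [MOD n 0] :=
        ((pert_modEq n K d).symm.trans hm).trans (pert_modEq n K _)
      have hs := single_mem_std h hi0
      have h3 : val n d = val n (Pi.single i 1) := le_antisymm (hd' _ hm2.symm) (hs _ hm2)
      rw [val_single, one_mul] at h3
      have h4 := h.unique h3
      have h5 : b = d := hU.eq hd (by rw [hb, h4, val_single, one_mul])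
      rw [h5, h4] at hb0
      simp at hb0

theorem unique_apery (h : IsMinGens S n) (hU : Uniq n) {x : ℕ} (hx : x ∈ Apery S (n 0)) :
    ∃! a, val n a = x := by
  have key : ∀ a, val n a = x → a ∈ Std n := by
    intro a ha b hb
    by_contra hlt
    push Not at hlt
    obtain ⟨c, hc⟩ := (Nat.modEq_iff_dvd' hlt.le).1 hb
    have hc0 : c ≠ 0 := by rintro rfl; omega
    obtain ⟨c, rfl⟩ := Nat.exists_eq_succ_of_ne_zero hc0
    refine hx.2 ⟨val n (b + Pi.single 0 c), h.mem _, ?_⟩
    rw [map_add, val_single, mul_comm c, ← ha]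
    rw [Nat.succ_eq_add_one, mul_add, mul_one] at hc
    omega
  obtain ⟨a, ha⟩ := h.exists_val hx.1
  exact ⟨a, ha, fun b hb => hU.eq (key a ha) (by rw [ha]; exact hb)⟩

/-- The main step. -/
theorem main_step (hS : IsNumericalSemigroup S) (h : IsMinGens S n) :
    ∃ (S' : AddSubmonoid ℕ) (n' : Fin (k + 1) → ℕ), IsNumericalSemigroup S' ∧ IsMinGens S' n' ∧
      n' 0 = n 0 ∧ Uniq n' ∧ eta n ≤ eta n' ∧ eta n ≤ n 0 * (k + 1) := by
  obtain ⟨K, hK⟩ := exists_bound hS h
  have h0 := h.pos 0
  have h0' : 0 < pert n K 0 := by rw [pert_zero]; exact h0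
  have hU := uniq_pert h0 hK
  obtain ⟨hS', h'⟩ := pert_minGens hS h hK
  obtain ⟨ρ, hρ, hcard⟩ := exists_presentation h0 hK
  have h1a : eta n ≤ ρ.card := Nat.sInf_le ⟨ρ, hρ, rfl⟩
  have h1 : eta n ≤ (Gen (pert n K)).ncard := h1a.trans hcard
  obtain ⟨K', hK'⟩ := exists_bound hS' h'
  obtain ⟨ρ₁, hρ₁, _⟩ := exists_presentation h0' hK'
  have hne : {j | ∃ ρ, FinPres (pert n K) ρ ∧ ρ.card = j}.Nonempty := ⟨_, ρ₁, hρ₁, rfl⟩
  obtain ⟨ρ₂, hρ₂, hc₂⟩ := Nat.sInf_mem hne
  have h2 : (Gen (pert n K)).ncard ≤ eta (pert n K) := by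
    have := card_le_of_presentation h0' hU hρ₂
    rw [hc₂] at this
    exact this
  refine ⟨_, _, hS', h', pert_zero n K, hU, h1.trans h2, h1.trans ?_⟩
  have := (gen_finite h0' hU).2
  rwa [pert_zero] at this

/-- There is a numerical semigroup with the given embedding dimension and multiplicity. -/
theorem exists_base {m : ℕ} (hkm : (k = 0 ∧ m = 1) ∨ (1 ≤ k ∧ k + 1 ≤ m)) :
    ∃ (S : AddSubmonoid ℕ) (n : Fin (k + 1) → ℕ), IsNumericalSemigroup S ∧ IsMinGens S n ∧
      n 0 = m := by
  have hm : 0 < m := by omega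
  have hk : k < m := by omega
  let n : Fin (k + 1) → ℕ := fun i => m + i
  refine ⟨AddSubmonoid.closure (Set.range n), n, ?_, ⟨?_, rfl, ?_⟩, by simp [n]⟩
  · refine (Set.finite_Iio (m * m)).subset ?_
    intro x hx
    by_contra hlt
    simp only [Set.mem_Iio, not_lt] at hlt
    apply hx
    rcases hkm with ⟨rfl, rfl⟩ | ⟨hk1, hk2⟩
    · exact (mem_closure _ _).2 ⟨Pi.single 0 x, by rw [val_single]; simp [n]⟩
    · have h1 : m ≤ x / m := (Nat.le_div_iff_mul_le hm).2 hlt
      have h2 : x % m < m := Nat.mod_lt _ hm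
      let i1 : Fin (k + 1) := ⟨1, by omega⟩
      refine (mem_closure _ _).2 ⟨Pi.single 0 (x / m - x % m) + Pi.single i1 (x % m), ?_⟩
      rw [map_add, val_single, val_single]
      simp only [n, Fin.val_zero, add_zero, i1]
      calc (x / m - x % m) * m + x % m * (m + 1)
          = ((x / m - x % m) + x % m) * m + x % m := by ring
        _ = x / m * m + x % m := by rw [Nat.sub_add_cancel (by omega)]
        _ = x := Nat.div_add_mod' x m
  · intro i j hij
    have : (i : ℕ) < j := hij
    simp only [n]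
    omega
  · intro i hi
    obtain ⟨b, hb0, hb⟩ := of_mem_closure_diff _ hi
    have hne : b ≠ 0 := by
      rintro rfl
      rw [map_zero] at hb
      simp only [n] at hb
      omega
    obtain ⟨j, hj⟩ := Function.ne_iff.1 hne
    obtain ⟨c, rfl⟩ := exists_eq_add (Nat.pos_of_ne_zero hj)
    rw [map_add, val_single, one_mul] at hb
    by_cases hc : c = 0
    · subst hc
      rw [map_zero, zero_add] at hb
      have hij : j = i := by
        apply Fin.ext
        simp only [n] at hb
        omega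
      subst hij
      simp at hb0
    · obtain ⟨l, hl⟩ := Function.ne_iff.1 hc
      obtain ⟨c', rfl⟩ := exists_eq_add (Nat.pos_of_ne_zero hl)
      rw [map_add, val_single, one_mul] at hb
      simp only [n] at hb
      have := i.2
      omega

end Final

theorem exists_finPres {k : ℕ} {n : Fin (k + 1) → ℕ} {S : AddSubmonoid ℕ}
    (hS : IsNumericalSemigroup S) (h : IsMinGens S n) : ∃ ρ₀, FinPres n ρ₀ := by
  obtain ⟨K, hK⟩ := exists_bound hS h
  obtain ⟨ρ, hρ, _⟩ := exists_presentation (h.pos 0) hK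
  exact ⟨ρ, hρ⟩

/-- **Answer to Q1: yes.** For all `e, m` with `e = m = 1` or `2 ≤ e ≤ m` there is a numerical
semigroup `S` with embedding dimension `e` and multiplicity `m`, all of whose Apéry elements have
exactly one factorization, and whose minimal presentations have the largest possible cardinality
`η` among all numerical semigroups with embedding dimension `e` and multiplicity `m`. -/
theorem result (e m : ℕ) (hem : (e = 1 ∧ m = 1) ∨ (2 ≤ e ∧ e ≤ m)) :
    ∃ (S : AddSubmonoid ℕ) (n : Fin e → ℕ) (η : ℕ),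
      IsNumericalSemigroup S ∧ IsMinGens S n ∧ IsMultiplicity S m ∧
      (∀ x ∈ Apery S m, ∃! a : Fin e → ℕ, val n a = x) ∧
      (∃ ρ, IsMinimalPresentation n ρ) ∧
      (∀ ρ, IsMinimalPresentation n ρ → ρ.Finite ∧ ρ.ncard = η) ∧
      ∀ (T : AddSubmonoid ℕ) (n' : Fin e → ℕ) (ρ' : Set ((Fin e → ℕ) × (Fin e → ℕ))),
        IsNumericalSemigroup T → IsMinGens T n' → IsMultiplicity T m →
          IsMinimalPresentation n' ρ' → ρ'.Finite ∧ ρ'.ncard ≤ η := by
  obtain ⟨k, rfl⟩ : ∃ k, e = k + 1 := ⟨e - 1, by omega⟩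
  let P : Set ℕ := {v | ∃ (T : AddSubmonoid ℕ) (n' : Fin (k + 1) → ℕ),
    IsNumericalSemigroup T ∧ IsMinGens T n' ∧ n' 0 = m ∧ eta n' = v}
  have hne : P.Nonempty := by
    obtain ⟨S, n, h1, h2, h3⟩ := exists_base (k := k) (m := m) (by omega)
    exact ⟨_, S, n, h1, h2, h3, rfl⟩
  have hbdd : BddAbove P := by
    refine ⟨m * (k + 1), ?_⟩
    rintro v ⟨T, n', h1, h2, h3, rfl⟩
    obtain ⟨_, _, _, _, _, _, _, h4⟩ := main_step h1 h2
    rwa [h3] at h4
  obtain ⟨T, n₀, hT, hn₀, hm₀, hv⟩ := Nat.sSup_mem hne hbdd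
  obtain ⟨S, n, hS, hn, hn0, hU, hle, _⟩ := main_step hT hn₀
  have hnm : n 0 = m := hn0.trans hm₀
  refine ⟨S, n, eta n, hS, hn, hnm ▸ mult_of_gens hn, ?_,
    exists_minimalPresentation (exists_finPres hS hn),
    fun ρ hρ => hρ.card hn.pos (exists_finPres hS hn), ?_⟩
  · intro x hx
    exact unique_apery hn hU (by rw [hnm]; exact hx)
  · intro T' n' ρ' hT' hn' hmT' hρ'
    have h1 : eta n' ≤ sSup P := le_csSup hbdd ⟨T', n', hT', hn', gens_zero hn' hmT', rfl⟩
    rw [← hv] at h1
    obtain ⟨h2, h3⟩ := hρ'.card hn'.pos (exists_finPres hT' hn')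
    exact ⟨h2, h3.trans_le (h1.trans hle)⟩

end Pool.Agent.Results.MP_e1d67a_co.MaxEtaUnique
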